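import Pool.Agent.H211.HY.Stm2
import Pool.Graph.R_seed8.H790R3.RB.TWR

/-!
# HY (helper211): S_LSS, the local structure near the critical values
-/

set_option autoImplicit false

open Topology Filter Metric Set MeasureTheory Polynomial

namespace Pool.Agent.H870.HY211

open Pool.Agent.H790R3.RB Pool.Agent.H211.HY

/-! ### The chordal distance -/

theorem N2_nonneg (p : ℂ × ℂ) : 0 ≤ N2 p := by
  unfold N2
  positivity

theorem N2_pos {p : ℂ × ℂ} (hp : p ≠ 0) : 0 < N2 p := by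
  unfold N2
  by_cases h1 : p.1 = 0
  · have h2 : p.2 ≠ 0 := fun h => hp (Prod.ext h1 h)
    have := norm_pos_iff.2 h2
    positivity
  · have := norm_pos_iff.2 h1
    positivity

theorem N2_smul (a : ℂ) (p : ℂ × ℂ) : N2 (a • p) = ‖a‖ ^ 2 * N2 p := by
  unfold N2
  rw [Prod.smul_fst, Prod.smul_snd, smul_eq_mul, smul_eq_mul, norm_mul, norm_mul]
  ring

theorem cho_smul (a b : ℂ) (ha : a ≠ 0) (hb : b ≠ 0) (p q : ℂ × ℂ) :
    cho (a • p) (b • q) = cho p q := by
  unfold cho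
  have ha' := norm_pos_iff.2 ha
  have hb' := norm_pos_iff.2 hb
  rw [cr_smul_left, cr_smul_right, norm_mul, norm_mul, N2_smul, N2_smul]
  have e : ‖a‖ ^ 2 * N2 p * (‖b‖ ^ 2 * N2 q) = (‖a‖ * ‖b‖) ^ 2 * (N2 p * N2 q) := by ring
  rw [e, Real.sqrt_mul (by positivity), Real.sqrt_sq (by positivity), ← mul_assoc,
    mul_div_mul_left _ _ (by positivity)]

theorem cho_nonneg (p q : ℂ × ℂ) : 0 ≤ cho p q := by
  unfold cho
  positivity

theorem cho_smul_right (b : ℂ) (hb : b ≠ 0) (p q : ℂ × ℂ) : cho p (b • q) = cho p q := by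
  have h := cho_smul 1 b one_ne_zero hb p q
  rwa [one_smul] at h

theorem norm_cr {p q : ℂ × ℂ} (hp : p ≠ 0) (hq : q ≠ 0) :
    ‖cr p q‖ = cho p q * (Real.sqrt (N2 p) * Real.sqrt (N2 q)) := by
  have h1 := N2_pos hp
  have h2 := N2_pos hq
  unfold cho
  rw [← Real.sqrt_mul h1.le, div_mul_cancel₀]
  exact (Real.sqrt_pos.2 (mul_pos h1 h2)).ne'

/-- the Hermitian product -/
noncomputable def ll (v u : ℂ × ℂ) : ℂ :=
  u.1 * (starRingEnd ℂ) v.1 + u.2 * (starRingEnd ℂ) v.2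

theorem lagrange (u v : ℂ × ℂ) : ‖cr u v‖ ^ 2 + ‖ll v u‖ ^ 2 = N2 u * N2 v := by
  unfold cr ll N2
  simp only [Complex.sq_norm, Complex.normSq_apply, Complex.sub_re, Complex.sub_im,
    Complex.mul_re, Complex.mul_im, Complex.add_re, Complex.add_im, Complex.conj_re,
    Complex.conj_im]
  ring

theorem ll_self (v : ℂ × ℂ) : ll v v = (N2 v : ℂ) := by
  unfold ll N2
  rw [Complex.mul_conj, Complex.mul_conj, Complex.normSq_eq_norm_sq, Complex.normSq_eq_norm_sq]
  push_cast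
  ring

theorem ll_smul (v u : ℂ × ℂ) (a : ℂ) : ll v (a • u) = a * ll v u := by
  unfold ll
  rw [Prod.smul_fst, Prod.smul_snd, smul_eq_mul, smul_eq_mul]
  ring

/-- `u` normalised to be close to `v` -/
noncomputable def nz (v u : ℂ × ℂ) : ℂ × ℂ := ((N2 v : ℂ) / ll v u) • u

theorem nz_close {v u : ℂ × ℂ} (hv : v ≠ 0) (hu : u ≠ 0) (h : cho u v ≤ 1 / 2) :
    ll v u ≠ 0 ∧ ‖nz v u - v‖ ≤ 2 * cho u v * Real.sqrt (N2 v) := by
  have hNv := N2_pos hv
  have hNu := N2_pos hu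
  have hc := cho_nonneg u v
  have e1 := norm_cr hu hv
  have e2 := lagrange u v
  have su : Real.sqrt (N2 u) ^ 2 = N2 u := Real.sq_sqrt hNu.le
  have sv : Real.sqrt (N2 v) ^ 2 = N2 v := Real.sq_sqrt hNv.le
  have su0 := Real.sqrt_pos.2 hNu
  have sv0 := Real.sqrt_pos.2 hNv
  obtain ⟨S, hS⟩ : ∃ S : ℝ, S = Real.sqrt (N2 u) * Real.sqrt (N2 v) := ⟨_, rfl⟩
  have hS0 : 0 < S := by rw [hS]; positivity
  have hS2 : S ^ 2 = N2 u * N2 v := by rw [hS, mul_pow, su, sv]
  rw [← hS] at e1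
  rw [← hS2, e1] at e2
  have hl : S / 2 ≤ ‖ll v u‖ := by
    refine le_of_sq_le_sq ?_ (norm_nonneg _)
    have h1 : (cho u v * S) ^ 2 ≤ (1 / 2 * S) ^ 2 :=
      pow_le_pow_left₀ (by positivity) (mul_le_mul_of_nonneg_right h hS0.le) 2
    nlinarith
  have hl0 : ll v u ≠ 0 := by
    intro h0
    rw [h0, norm_zero] at hl
    linarith
  refine ⟨hl0, ?_⟩
  have e3 : nz v u - v = (cr v u / ll v u) •
      ((-(starRingEnd ℂ) v.2, (starRingEnd ℂ) v.1) : ℂ × ℂ) := by
    have hN : (N2 v : ℂ) = v.1 * (starRingEnd ℂ) v.1 + v.2 * (starRingEnd ℂ) v.2 :=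
      (ll_self v).symm
    unfold nz
    refine Prod.ext ?_ ?_
    · rw [Prod.fst_sub, Prod.smul_fst, Prod.smul_fst, smul_eq_mul, smul_eq_mul]
      rw [hN]
      have := hl0
      field_simp
      unfold ll cr
      ring
    · rw [Prod.snd_sub, Prod.smul_snd, Prod.smul_snd, smul_eq_mul, smul_eq_mul]
      rw [hN]
      have := hl0
      field_simp
      unfold ll cr
      ring
  rw [e3, norm_smul, norm_div]
  have e4 : ‖((-(starRingEnd ℂ) v.2, (starRingEnd ℂ) v.1) : ℂ × ℂ)‖ ≤ Real.sqrt (N2 v) := by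
    rw [Prod.norm_def]
    refine max_le ?_ ?_
    · show ‖-(starRingEnd ℂ) v.2‖ ≤ _
      rw [norm_neg, RCLike.norm_conj]
      refine Real.le_sqrt_of_sq_le ?_
      unfold N2
      nlinarith [sq_nonneg ‖v.1‖]
    · show ‖(starRingEnd ℂ) v.1‖ ≤ _
      rw [RCLike.norm_conj]
      refine Real.le_sqrt_of_sq_le ?_
      unfold N2
      nlinarith [sq_nonneg ‖v.2‖]
  have e5 : ‖cr v u‖ / ‖ll v u‖ ≤ 2 * cho u v := by
    have : ‖cr v u‖ = ‖cr u v‖ := by rw [cr_comm, norm_neg]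
    rw [this, e1, div_le_iff₀ (by linarith)]
    nlinarith
  exact mul_le_mul e5 e4 (norm_nonneg _) (by positivity)

theorem nz_ne {v u : ℂ × ℂ} (hv : v ≠ 0) (hu : u ≠ 0) (hl : ll v u ≠ 0) : nz v u ≠ 0 := by
  have : (N2 v : ℂ) ≠ 0 := by exact_mod_cast (N2_pos hv).ne'
  exact smul_ne_zero (div_ne_zero this hl) hu

theorem ll_nz {v u : ℂ × ℂ} (hl : ll v u ≠ 0) : ll v (nz v u) = (N2 v : ℂ) := by
  unfold nz
  rw [ll_smul, div_mul_cancel₀ _ hl]

/-! ### The local inverse -/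

theorem local_inv {d : ℕ} (x : CV d) (hd : 2 ≤ d) (q : ℂ × ℂ) (hw : wr x q ≠ 0) :
    ∃ (inv : ℂ × ℂ → ℂ × ℂ) (r : ℝ), 0 < r ∧ DifferentiableOn ℂ inv (ball (hF x q) r) ∧
      (∀ p ∈ ball (hF x q) r, hF x (inv p) = p) ∧ ∀ᶠ z in 𝓝 q, inv (hF x z) = z := by
  have hcd : ContDiff ℂ 1 (hF x) :=
    (hF_contDiff d 1).comp (contDiff_const.prodMk contDiff_id)
  have hda : HasFDerivAt (hF x) (fderiv ℂ (hF x) q) q :=
    (hcd.differentiable one_ne_zero q).hasFDerivAt
  have hinj : Function.Injective (fderiv ℂ (hF x) q : ℂ × ℂ →ₗ[ℂ] ℂ × ℂ) := by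
    rw [injective_iff_map_eq_zero]
    intro v hv
    have hv' : fderiv ℂ (hF x) q v = 0 := hv
    by_contra hne
    have key := (WR d x hd).2.2 q v (-(starRingEnd ℂ) v.2, (starRingEnd ℂ) v.1)
    rw [hv'] at key
    have e1 : cr v (-(starRingEnd ℂ) v.2, (starRingEnd ℂ) v.1) = (N2 v : ℂ) := by
      rw [← ll_self]
      unfold cr ll
      ring
    rw [e1] at key
    have e2 : cr 0 (fderiv ℂ (hF x) q (-(starRingEnd ℂ) v.2, (starRingEnd ℂ) v.1)) = 0 := by
      unfold cr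
      simp
    rw [e2] at key
    have e3 : (N2 v : ℂ) ≠ 0 := by exact_mod_cast (N2_pos hne).ne'
    exact mul_ne_zero hw e3 key.symm
  let E : (ℂ × ℂ) ≃L[ℂ] (ℂ × ℂ) :=
    (LinearEquiv.ofInjectiveEndo (fderiv ℂ (hF x) q : ℂ × ℂ →ₗ[ℂ] ℂ × ℂ)
      hinj).toContinuousLinearEquiv
  have hE : (E : ℂ × ℂ →L[ℂ] ℂ × ℂ) = fderiv ℂ (hF x) q := by
    refine ContinuousLinearMap.ext fun v => ?_
    rfl
  have hda' : HasFDerivAt (hF x) (E : ℂ × ℂ →L[ℂ] ℂ × ℂ) q := by
    rw [hE]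
    exact hda
  have hs : HasStrictFDerivAt (hF x) (E : ℂ × ℂ →L[ℂ] ℂ × ℂ) q :=
    hcd.contDiffAt.hasStrictFDerivAt' hda' one_ne_zero
  have h1 : ContDiffAt ℂ 1 (hs.localInverse (hF x) E q) (hF x q) :=
    hcd.contDiffAt.to_localInverse hda' one_ne_zero
  have h2 := h1.eventually (by simp)
  have h3 := hs.eventually_right_inverse
  obtain ⟨r, hr, hball⟩ := Metric.eventually_nhds_iff_ball.1 (h2.and h3)
  refine ⟨hs.localInverse (hF x) E q, r, hr, ?_, fun p hp => (hball p hp).2,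
    hs.eventually_left_inverse⟩
  intro p hp
  exact ((hball p hp).1.differentiableAt one_ne_zero).differentiableWithinAt

/-- lifting near a noncritical point -/
theorem local_lift {d : ℕ} (x : CV d) (hd : 2 ≤ d) (hx : ND x) (q : ℂ × ℂ) (hq : q ≠ 0)
    (hw : wr x q ≠ 0) : ∃ s > (0 : ℝ), ∀ z : ℂ × ℂ, z ≠ 0 → cho z q < s →
      ∀ (g : ℂ → ℂ × ℂ) (y : ℂ) (R : ℝ), 0 < R → DifferentiableOn ℂ g (ball y R) →
        (∀ w ∈ ball y R, g w ≠ 0 ∧ cho (g w) (hF x q) < s) → cr (g y) (hF x z) = 0 →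
        ∃ G : ℂ → ℂ × ℂ, DifferentiableOn ℂ G (ball y R) ∧
          (∀ w ∈ ball y R, G w ≠ 0 ∧ cr (hF x (G w)) (g w) = 0) ∧ cr (G y) z = 0 := by
  obtain ⟨inv, r, hr, hdif, hri, hli⟩ := local_inv x hd q hw
  obtain ⟨p, hp⟩ : ∃ p : ℂ × ℂ, p = hF x q := ⟨_, rfl⟩
  have hp0 : p ≠ 0 := by
    rw [hp]
    exact fun h => hq (hx q h)
  have hNp := N2_pos hp0
  have hNq := N2_pos hq
  have hNpc : (N2 p : ℂ) ≠ 0 := by exact_mod_cast hNp.ne'
  rw [← hp] at hdif hri ⊢
  have hcont : Continuous (hF x) :=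
    ((hF_contDiff d 1).comp (contDiff_const.prodMk contDiff_id)).continuous
  have hd0 : d ≠ 0 := by omega
  -- the normalisation of the image
  let lam : ℂ × ℂ → ℂ := fun z => ll p (hF x z) / N2 p
  let Ψ : ℂ × ℂ → ℂ × ℂ := fun z => ((lam z)⁻¹ ^ ((d : ℂ)⁻¹)) • z
  have hlc : Continuous lam := by
    have h1 : Continuous fun z : ℂ × ℂ => ll p (hF x z) := by
      unfold ll
      have h2 : Continuous fun z : ℂ × ℂ => (hF x z).1 := continuous_fst.comp hcont
      have h3 : Continuous fun z : ℂ × ℂ => (hF x z).2 := continuous_snd.comp hcont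
      exact (h2.mul continuous_const).add (h3.mul continuous_const)
    exact h1.div_const _
  have hlq : lam q = 1 := by
    show ll p (hF x q) / N2 p = 1
    rw [← hp, ll_self, div_self hNpc]
  have hΨc : ContinuousAt Ψ q := by
    have h1 : ContinuousAt (fun z => (lam z)⁻¹) q :=
      hlc.continuousAt.inv₀ (by rw [hlq]; exact one_ne_zero)
    have h2 : ContinuousAt (fun z => (lam z)⁻¹ ^ ((d : ℂ)⁻¹)) q := by
      refine h1.cpow continuousAt_const ?_
      rw [hlq, inv_one]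
      exact Complex.one_mem_slitPlane
    exact h2.smul continuousAt_id
  have hΨq : Ψ q = q := by
    show ((lam q)⁻¹ ^ ((d : ℂ)⁻¹)) • q = q
    rw [hlq, inv_one, Complex.one_cpow, one_smul]
  have hev1 : ∀ᶠ z in 𝓝 q, inv (hF x (Ψ z)) = Ψ z := by
    have : Tendsto Ψ (𝓝 q) (𝓝 q) := by
      have := hΨc.tendsto
      rwa [hΨq] at this
    exact this.eventually hli
  have hev2 : ∀ᶠ z in 𝓝 q, lam z ≠ 0 :=
    hlc.continuousAt.eventually_ne (by rw [hlq]; exact one_ne_zero)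
  obtain ⟨r', hr', hball⟩ := Metric.eventually_nhds_iff_ball.1 (hev1.and hev2)
  -- the radius
  obtain ⟨s, hs⟩ : ∃ s : ℝ, s = min (1 / 2) (min (r / (4 * Real.sqrt (N2 p)))
    (r' / (4 * Real.sqrt (N2 q)))) := ⟨_, rfl⟩
  have sp0 := Real.sqrt_pos.2 hNp
  have sq0 := Real.sqrt_pos.2 hNq
  have hs0 : 0 < s := by
    rw [hs]
    exact lt_min (by norm_num) (lt_min (by positivity) (by positivity))
  have hs1 : s ≤ 1 / 2 := by rw [hs]; exact min_le_left _ _
  have hs2 : 2 * s * Real.sqrt (N2 p) < r := by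
    have h1 : s ≤ r / (4 * Real.sqrt (N2 p)) := by
      rw [hs]
      exact (min_le_right _ _).trans (min_le_left _ _)
    rw [le_div_iff₀ (by positivity)] at h1
    linarith
  have hs3 : 2 * s * Real.sqrt (N2 q) < r' := by
    have h1 : s ≤ r' / (4 * Real.sqrt (N2 q)) := by
      rw [hs]
      exact (min_le_right _ _).trans (min_le_right _ _)
    rw [le_div_iff₀ (by positivity)] at h1
    linarith
  refine ⟨s, hs0, ?_⟩
  intro z hz hzq g y R hR hg hgs hgz
  -- the normalised curve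
  have hu : ∀ w ∈ ball y R, ll p (g w) ≠ 0 ∧ nz p (g w) ∈ ball p r ∧ nz p (g w) ≠ 0 := by
    intro w hw
    obtain ⟨h1, h2⟩ := hgs w hw
    obtain ⟨h3, h4⟩ := nz_close hp0 h1 (h2.le.trans hs1)
    refine ⟨h3, ?_, nz_ne hp0 h1 h3⟩
    rw [mem_ball, dist_eq_norm]
    refine lt_of_le_of_lt h4 (lt_of_le_of_lt ?_ hs2)
    exact mul_le_mul_of_nonneg_right (by linarith) sp0.le
  have hud : DifferentiableOn ℂ (fun w => nz p (g w)) (ball y R) := by
    unfold nz
    have h1 : DifferentiableOn ℂ (fun w => ll p (g w)) (ball y R) := by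
      unfold ll
      have h2 : DifferentiableOn ℂ (fun w => (g w).1) (ball y R) :=
        differentiable_fst.comp_differentiableOn hg
      have h3 : DifferentiableOn ℂ (fun w => (g w).2) (ball y R) :=
        differentiable_snd.comp_differentiableOn hg
      exact (h2.mul_const _).add (h3.mul_const _)
    exact ((differentiableOn_const _).div h1 fun w hw => (hu w hw).1).smul hg
  refine ⟨fun w => inv (nz p (g w)), ?_, ?_, ?_⟩
  · exact hdif.comp hud fun w hw => (hu w hw).2.1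
  · intro w hw
    have h1 := hri _ (hu w hw).2.1
    refine ⟨?_, ?_⟩
    · intro h0
      have h0' : inv (nz p (g w)) = 0 := h0
      rw [h0'] at h1
      have h2 : hF x 0 = 0 := by
        have h3 := hF_smul x 0 0
        rw [zero_smul, zero_pow hd0, zero_smul] at h3
        exact h3
      rw [h2] at h1
      exact (hu w hw).2.2 h1.symm
    · show cr (hF x (inv (nz p (g w)))) (g w) = 0
      rw [h1]
      unfold nz
      rw [cr_smul_left, cr_self, mul_zero]
  · have hy : y ∈ ball y R := mem_ball_self hR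
    show cr (inv (nz p (g y))) z = 0
    obtain ⟨h1, h2⟩ := nz_close hq hz (hzq.le.trans hs1)
    obtain ⟨z₁, hz₁⟩ : ∃ z₁ : ℂ × ℂ, z₁ = nz q z := ⟨_, rfl⟩
    have hz1b : z₁ ∈ ball q r' := by
      rw [hz₁, mem_ball, dist_eq_norm]
      refine lt_of_le_of_lt h2 (lt_of_le_of_lt ?_ hs3)
      exact mul_le_mul_of_nonneg_right (by linarith) sq0.le
    obtain ⟨h3, h4⟩ := hball z₁ hz1b
    have hz10 : z₁ ≠ 0 := by rw [hz₁]; exact nz_ne hq hz h1
    have hFz1 : hF x z₁ ≠ 0 := fun h => hz10 (hx _ h)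
    have hFz : hF x z ≠ 0 := fun h => hz (hx _ h)
    -- the image is parallel
    have hpar : cr (hF x z₁) (nz p (g y)) = 0 := by
      have e1 : cr (hF x z₁) (hF x z) = 0 := by
        rw [hz₁]
        unfold nz
        rw [hF_smul, cr_smul_left, cr_self, mul_zero]
      have e2 : cr (hF x z) (nz p (g y)) = 0 := by
        unfold nz
        rw [cr_smul_right, cr_comm, hgz, neg_zero, mul_zero]
      exact cr_trans hFz e1 e2
    obtain ⟨a, ha, hax⟩ := (cr_eq_zero_iff hFz1 (hu y hy).2.2).1 hpar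
    have hal : lam z₁ = a := by
      show ll p (hF x z₁) / N2 p = a
      rw [hax, ll_smul, ll_nz (hu y hy).1, mul_div_assoc, div_self hNpc, mul_one]
    have hFΨ : hF x (Ψ z₁) = nz p (g y) := by
      show hF x (((lam z₁)⁻¹ ^ ((d : ℂ)⁻¹)) • z₁) = _
      rw [hF_smul, Complex.cpow_nat_inv_pow _ hd0, hal, hax, smul_smul, inv_mul_cancel₀ ha,
        one_smul]
    rw [← hFΨ, h3]
    show cr (((lam z₁)⁻¹ ^ ((d : ℂ)⁻¹)) • z₁) z = 0
    rw [hz₁]
    unfold nz
    rw [cr_smul_left, cr_smul_left, cr_self, mul_zero, mul_zero]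

/-! ### Factorisation -/

/-- a binary form is a product of linear forms -/
theorem form_factor {d : ℕ} (c : Fin (d + 1) → ℂ)
    (hc : ∃ z : ℂ × ℂ, ∑ j : Fin (d + 1), c j * (z.1 ^ (j : ℕ) * z.2 ^ (d - (j : ℕ))) ≠ 0) :
    ∃ (a : ℂ) (q : Fin d → ℂ × ℂ), a ≠ 0 ∧ (∀ j, q j ≠ 0) ∧ ∀ z : ℂ × ℂ,
      ∑ j : Fin (d + 1), c j * (z.1 ^ (j : ℕ) * z.2 ^ (d - (j : ℕ))) = a * ∏ j, cr z (q j) := by
  classical
  obtain ⟨P, hP⟩ : ∃ P : ℂ[X], P = ∑ j : Fin (d + 1), Polynomial.monomial (j : ℕ) (c j) :=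
    ⟨_, rfl⟩
  have hdeg : P.natDegree ≤ d := by
    rw [hP]
    refine Polynomial.natDegree_sum_le_of_forall_le _ _ fun j _ => ?_
    exact (Polynomial.natDegree_monomial_le _).trans (by have := j.2; omega)
  have hcoeff : P.coeff d = c (Fin.last d) := by
    rw [hP, Polynomial.finsetSum_coeff, Finset.sum_eq_single (Fin.last d)]
    · rw [Polynomial.coeff_monomial, if_pos (Fin.val_last d)]
    · intro j _ hj
      rw [Polynomial.coeff_monomial, if_neg]
      intro h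
      exact hj (Fin.ext (by rw [Fin.val_last]; exact h))
    · intro h
      exact absurd (Finset.mem_univ _) h
  have heval : ∀ z : ℂ × ℂ, z.2 ≠ 0 →
      ∑ j : Fin (d + 1), c j * (z.1 ^ (j : ℕ) * z.2 ^ (d - (j : ℕ))) =
        z.2 ^ d * P.eval (z.1 / z.2) := by
    intro z hz
    rw [hP, Polynomial.eval_finsetSum, Finset.mul_sum]
    refine Finset.sum_congr rfl fun j _ => ?_
    rw [Polynomial.eval_monomial]
    have hj : (j : ℕ) + (d - (j : ℕ)) = d := by have := j.2; omega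
    have e1 : z.2 ^ d = z.2 ^ (j : ℕ) * z.2 ^ (d - (j : ℕ)) := by rw [← pow_add, hj]
    rw [e1, div_pow]
    field_simp
  have heval0 : ∀ z : ℂ × ℂ, z.2 = 0 →
      ∑ j : Fin (d + 1), c j * (z.1 ^ (j : ℕ) * z.2 ^ (d - (j : ℕ))) =
        P.coeff d * z.1 ^ d := by
    intro z hz
    rw [hcoeff, Finset.sum_eq_single (Fin.last d)]
    · rw [Fin.val_last, Nat.sub_self, pow_zero, mul_one]
    · intro j _ hj
      have h1 : d - (j : ℕ) ≠ 0 := by
        intro h
        apply hj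
        apply Fin.ext
        rw [Fin.val_last]
        have := j.2
        omega
      rw [hz, zero_pow h1, mul_zero, mul_zero]
    · intro h
      exact absurd (Finset.mem_univ _) h
  have hP0 : P ≠ 0 := by
    intro h0
    obtain ⟨z, hz⟩ := hc
    apply hz
    by_cases h2 : z.2 = 0
    · rw [heval0 z h2, h0, Polynomial.coeff_zero, zero_mul]
    · rw [heval z h2, h0, Polynomial.eval_zero, mul_zero]
  obtain ⟨n, hn⟩ : ∃ n : ℕ, n = P.natDegree := ⟨_, rfl⟩
  have hroots : P.roots.card = n := by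
    rw [hn]
    exact IsAlgClosed.card_roots_eq_natDegree
  have hprod : ∀ ζ : ℂ, P.eval ζ = P.leadingCoeff * (P.roots.map fun a => ζ - a).prod := by
    intro ζ
    have h1 := (IsAlgClosed.splits P).eq_prod_roots
    conv_lhs => rw [h1]
    rw [eval_mul, eval_C, eval_multiset_prod, Multiset.map_map]
    simp
  -- the list of the zeros
  obtain ⟨l, hl⟩ : ∃ l : List (ℂ × ℂ), l = P.roots.toList.map (fun r => ((r, 1) : ℂ × ℂ)) ++
    List.replicate (d - n) ((1, 0) : ℂ × ℂ) := ⟨_, rfl⟩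
  have hlen : l.length = d := by
    rw [hl, List.length_append, List.length_map, List.length_replicate, Multiset.length_toList,
      hroots]
    omega
  have hl0 : ∀ q ∈ l, q ≠ 0 := by
    intro q hq
    rw [hl, List.mem_append, List.mem_map] at hq
    rcases hq with ⟨r, -, rfl⟩ | hq
    · intro h
      exact one_ne_zero (congrArg Prod.snd h)
    · rw [(List.mem_replicate.1 hq).2]
      intro h
      exact one_ne_zero (congrArg Prod.fst h)
  have hlprod : ∀ z : ℂ × ℂ, (l.map fun q => cr z q).prod =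
      (P.roots.map fun r => z.1 - z.2 * r).prod * (-z.2) ^ (d - n) := by
    intro z
    rw [hl, List.map_append, List.prod_append, List.map_map, List.map_replicate,
      List.prod_replicate]
    have e1 : cr z (1, 0) = -z.2 := by unfold cr; ring
    have e2 : (P.roots.toList.map ((fun q => cr z q) ∘ fun r => ((r, 1) : ℂ × ℂ))).prod =
        (P.roots.map fun r => z.1 - z.2 * r).prod := by
      conv_rhs => rw [← Multiset.coe_toList P.roots]
      rw [Multiset.map_coe, Multiset.prod_coe]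
      congr 2
      funext r
      show cr z (r, 1) = _
      unfold cr
      ring
    rw [e1, e2]
  have hfin : ∀ z : ℂ × ℂ, ∏ j : Fin d, cr z (l.get (j.cast hlen.symm)) =
      (l.map fun q => cr z q).prod := by
    intro z
    have e1 : ∏ j : Fin d, cr z (l.get (j.cast hlen.symm)) =
        ∏ j : Fin l.length, cr z (l.get j) := by
      refine Fintype.prod_equiv (finCongr hlen.symm) _ _ fun j => rfl
    rw [e1]
    have e2 := Fin.prod_univ_fun_getElem l (fun q => cr z q)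
    exact e2
  refine ⟨P.leadingCoeff * (-1) ^ (d - n), fun j => l.get (j.cast hlen.symm), ?_, ?_, ?_⟩
  · exact mul_ne_zero (Polynomial.leadingCoeff_ne_zero.2 hP0) (pow_ne_zero _ (by norm_num))
  · intro j
    exact hl0 _ (List.get_mem _ _)
  · intro z
    rw [hfin, hlprod]
    by_cases h2 : z.2 = 0
    · rw [heval0 z h2, h2]
      have e1 : (P.roots.map fun r => z.1 - 0 * r).prod = z.1 ^ n := by
        have : (fun r : ℂ => z.1 - 0 * r) = fun _ => z.1 := by
          funext r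
          ring
        rw [this, Multiset.map_const', Multiset.prod_replicate, hroots]
      rw [e1]
      rcases Nat.lt_or_ge n d with hnd | hnd
      · have h3 : P.coeff d = 0 := Polynomial.coeff_eq_zero_of_natDegree_lt (by rw [← hn]; exact hnd)
        have h4 : d - n ≠ 0 := by omega
        rw [h3, neg_zero, zero_pow h4]
        ring
      · have h3 : n = d := by omega
        have h4 : P.leadingCoeff = P.coeff d := by rw [Polynomial.leadingCoeff, ← hn, h3]
        rw [h4, h3, Nat.sub_self]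
        ring
    · rw [heval z h2, hprod]
      have e1 : (P.roots.map fun r => z.1 - z.2 * r).prod =
          z.2 ^ n * (P.roots.map fun r => z.1 / z.2 - r).prod := by
        have : (P.roots.map fun r => z.1 - z.2 * r) =
            P.roots.map fun r => z.2 * (z.1 / z.2 - r) := by
          refine Multiset.map_congr rfl fun r _ => ?_
          field_simp
        rw [this, Multiset.prod_map_mul, Multiset.map_const', Multiset.prod_replicate, hroots]
      have hnd : n ≤ d := by rw [hn]; exact hdeg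
      have e2 : z.2 ^ d = z.2 ^ n * z.2 ^ (d - n) := by
        rw [← pow_add]
        congr 1
        omega
      have e3 : (-z.2) ^ (d - n) = (-1) ^ (d - n) * z.2 ^ (d - n) := by
        rw [neg_eq_neg_one_mul, mul_pow]
      have e4 : ((-1 : ℂ) ^ (d - n)) * (-1) ^ (d - n) = 1 := by
        rw [← mul_pow]
        norm_num
      rw [e1, e2, e3]
      calc z.2 ^ n * z.2 ^ (d - n) * (P.leadingCoeff * (P.roots.map fun a => z.1 / z.2 - a).prod)
          = (1 : ℂ) * (z.2 ^ n * z.2 ^ (d - n) *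
            (P.leadingCoeff * (P.roots.map fun a => z.1 / z.2 - a).prod)) := (one_mul _).symm
        _ = (((-1 : ℂ) ^ (d - n)) * (-1) ^ (d - n)) * (z.2 ^ n * z.2 ^ (d - n) *
            (P.leadingCoeff * (P.roots.map fun a => z.1 / z.2 - a).prod)) := by rw [e4]
        _ = _ := by ring

/-- upper bound for the homogeneous map -/
theorem hF_bound {d : ℕ} (x : CV d) : ∃ M > (0 : ℝ), ∀ z : ℂ × ℂ,
    Real.sqrt (N2 (hF x z)) ≤ M * Real.sqrt (N2 z) ^ d := by
  have comp : ∀ (c : Fin (d + 1) → ℂ) (z : ℂ × ℂ),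
      ‖∑ j : Fin (d + 1), c j * (z.1 ^ (j : ℕ) * z.2 ^ (d - (j : ℕ)))‖ ≤
        (∑ j, ‖c j‖) * Real.sqrt (N2 z) ^ d := by
    intro c z
    have h1 : ‖z.1‖ ≤ Real.sqrt (N2 z) := by
      refine Real.le_sqrt_of_sq_le ?_
      unfold N2
      nlinarith [sq_nonneg ‖z.2‖]
    have h2 : ‖z.2‖ ≤ Real.sqrt (N2 z) := by
      refine Real.le_sqrt_of_sq_le ?_
      unfold N2
      nlinarith [sq_nonneg ‖z.1‖]
    rw [Finset.sum_mul]
    refine (norm_sum_le _ _).trans (Finset.sum_le_sum fun j _ => ?_)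
    rw [norm_mul, norm_mul, norm_pow, norm_pow]
    refine mul_le_mul_of_nonneg_left ?_ (norm_nonneg _)
    have hj : (j : ℕ) + (d - (j : ℕ)) = d := by have := j.2; omega
    calc ‖z.1‖ ^ (j : ℕ) * ‖z.2‖ ^ (d - (j : ℕ)) ≤
          Real.sqrt (N2 z) ^ (j : ℕ) * Real.sqrt (N2 z) ^ (d - (j : ℕ)) :=
          mul_le_mul (pow_le_pow_left₀ (norm_nonneg _) h1 _)
            (pow_le_pow_left₀ (norm_nonneg _) h2 _) (by positivity) (by positivity)
      _ = Real.sqrt (N2 z) ^ d := by rw [← pow_add, hj]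
  obtain ⟨A, hA⟩ : ∃ A : ℝ, A = ∑ j, ‖x (0, j)‖ := ⟨_, rfl⟩
  obtain ⟨B, hB⟩ : ∃ B : ℝ, B = ∑ j, ‖x (1, j)‖ := ⟨_, rfl⟩
  have hA0 : 0 ≤ A := by rw [hA]; exact Finset.sum_nonneg fun _ _ => norm_nonneg _
  have hB0 : 0 ≤ B := by rw [hB]; exact Finset.sum_nonneg fun _ _ => norm_nonneg _
  refine ⟨A + B + 1, by linarith, fun z => ?_⟩
  have h1 : ‖(hF x z).1‖ ≤ A * Real.sqrt (N2 z) ^ d := by
    rw [hA]
    exact comp (fun j => x (0, j)) z
  have h2 : ‖(hF x z).2‖ ≤ B * Real.sqrt (N2 z) ^ d := by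
    rw [hB]
    exact comp (fun j => x (1, j)) z
  obtain ⟨t, ht⟩ : ∃ t : ℝ, t = Real.sqrt (N2 z) ^ d := ⟨_, rfl⟩
  rw [← ht] at h1 h2 ⊢
  have ht0 : 0 ≤ t := by rw [ht]; positivity
  refine Real.sqrt_le_iff.2 ⟨by positivity, ?_⟩
  unfold N2
  have h3 : ‖(hF x z).1‖ ^ 2 ≤ (A * t) ^ 2 := pow_le_pow_left₀ (norm_nonneg _) h1 2
  have h4 : ‖(hF x z).2‖ ^ 2 ≤ (B * t) ^ 2 := pow_le_pow_left₀ (norm_nonneg _) h2 2
  have h5 : (A * t) ^ 2 + (B * t) ^ 2 ≤ ((A + B + 1) * t) ^ 2 := by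
    have e1 : ((A + B + 1) * t) ^ 2 - ((A * t) ^ 2 + (B * t) ^ 2) =
        (2 * (A * B) + 2 * A + 2 * B + 1) * t ^ 2 := by ring
    have e2 : 0 ≤ (2 * (A * B) + 2 * A + 2 * B + 1) * t ^ 2 := by
      have := mul_nonneg hA0 hB0
      positivity
    linarith
  linarith

/-- the preimages of a point, with a lower bound for the distance of the images -/
theorem preimages {d : ℕ} (x : CV d) (hd : 2 ≤ d) (hx : ND x) (hw : ∃ p, wr x p ≠ 0)
    (v : ℂ × ℂ) (hv : v ≠ 0) : ∃ C > (0 : ℝ), ∃ q : Fin d → ℂ × ℂ,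
      (∀ j, q j ≠ 0 ∧ cr (hF x (q j)) v = 0) ∧
      ∀ z : ℂ × ℂ, z ≠ 0 → ∏ j, cho z (q j) ≤ C * cho (hF x z) v := by
  obtain ⟨c, hc⟩ : ∃ c : Fin (d + 1) → ℂ, c = fun j => x (0, j) * v.2 - x (1, j) * v.1 :=
    ⟨_, rfl⟩
  have hform : ∀ z : ℂ × ℂ, ∑ j : Fin (d + 1), c j * (z.1 ^ (j : ℕ) * z.2 ^ (d - (j : ℕ))) =
      cr (hF x z) v := by
    intro z
    unfold cr hF
    simp only
    rw [Finset.sum_mul, Finset.sum_mul, ← Finset.sum_sub_distrib, hc]
    refine Finset.sum_congr rfl fun j _ => ?_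
    ring
  have hne : ∃ z : ℂ × ℂ,
      ∑ j : Fin (d + 1), c j * (z.1 ^ (j : ℕ) * z.2 ^ (d - (j : ℕ))) ≠ 0 := by
    by_contra hcon
    push Not at hcon
    have h0 : ∀ z : ℂ × ℂ, cr (hF x z) v = 0 := fun z => by rw [← hform z]; exact hcon z
    obtain ⟨p, hp⟩ := hw
    have hcd : ContDiff ℂ 1 (hF x) :=
      (hF_contDiff d 1).comp (contDiff_const.prodMk contDiff_id)
    have hda : HasFDerivAt (hF x) (fderiv ℂ (hF x) p) p :=
      (hcd.differentiable one_ne_zero p).hasFDerivAt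
    have h1 : HasFDerivAt (fun z => (hF x z).1 * v.2 - (hF x z).2 * v.1)
        (v.2 • ((ContinuousLinearMap.fst ℂ ℂ ℂ).comp (fderiv ℂ (hF x) p)) -
          v.1 • ((ContinuousLinearMap.snd ℂ ℂ ℂ).comp (fderiv ℂ (hF x) p))) p := by
      have e1 : HasFDerivAt (fun z => (hF x z).1)
          ((ContinuousLinearMap.fst ℂ ℂ ℂ).comp (fderiv ℂ (hF x) p)) p := hda.fst
      have e2 : HasFDerivAt (fun z => (hF x z).2)
          ((ContinuousLinearMap.snd ℂ ℂ ℂ).comp (fderiv ℂ (hF x) p)) p := hda.snd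
      exact (e1.mul_const v.2).sub (e2.mul_const v.1)
    have h2 : (fun z => (hF x z).1 * v.2 - (hF x z).2 * v.1) = fun _ => 0 := funext h0
    rw [h2] at h1
    have h3 := h1.unique (hasFDerivAt_const (0 : ℂ) p)
    have h4 : ∀ t : ℂ × ℂ, cr (fderiv ℂ (hF x) p t) v = 0 := by
      intro t
      have := congrArg (fun L : ℂ × ℂ →L[ℂ] ℂ => L t) h3
      have e : cr (fderiv ℂ (hF x) p t) v =
        v.2 * (fderiv ℂ (hF x) p t).1 - v.1 * (fderiv ℂ (hF x) p t).2 := by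
        unfold cr
        ring
      rw [e]
      exact this
    have h5 := (WR d x hd).2.2 p (1, 0) (0, 1)
    have h6 : cr (fderiv ℂ (hF x) p (1, 0)) (fderiv ℂ (hF x) p (0, 1)) = 0 :=
      cr_trans hv (h4 _) (by rw [cr_comm, h4, neg_zero])
    have h7 : cr ((1, 0) : ℂ × ℂ) (0, 1) = 1 := by unfold cr; simp
    rw [h6, h7, mul_one] at h5
    exact hp h5.symm
  obtain ⟨a, q, ha, hq, hfac⟩ := form_factor c hne
  obtain ⟨M, hM, hbd⟩ := hF_bound x
  have ha' := norm_pos_iff.2 ha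
  have hNv := N2_pos hv
  have sv0 := Real.sqrt_pos.2 hNv
  have sq0 : ∀ j, 0 < Real.sqrt (N2 (q j)) := fun j => Real.sqrt_pos.2 (N2_pos (hq j))
  have hQ0 : 0 < ∏ j, Real.sqrt (N2 (q j)) := Finset.prod_pos fun j _ => sq0 j
  refine ⟨M * Real.sqrt (N2 v) / (‖a‖ * ∏ j, Real.sqrt (N2 (q j))), by positivity, q, ?_, ?_⟩
  · intro j
    refine ⟨hq j, ?_⟩
    rw [← hform, hfac, Finset.prod_eq_zero (Finset.mem_univ j) (cr_self _), mul_zero]
  · intro z hz
    have hFz : hF x z ≠ 0 := fun h => hz (hx _ h)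
    have sz0 := Real.sqrt_pos.2 (N2_pos hz)
    have e1 : ‖cr (hF x z) v‖ = ‖a‖ * ∏ j, ‖cr z (q j)‖ := by
      rw [← hform, hfac, norm_mul, norm_prod]
    have e2 : ∏ j, ‖cr z (q j)‖ = (∏ j, cho z (q j)) * (Real.sqrt (N2 z) ^ d *
        ∏ j, Real.sqrt (N2 (q j))) := by
      have : ∀ j ∈ (Finset.univ : Finset (Fin d)), ‖cr z (q j)‖ =
          cho z (q j) * (Real.sqrt (N2 z) * Real.sqrt (N2 (q j))) := fun j _ => norm_cr hz (hq j)
      rw [Finset.prod_congr rfl this, Finset.prod_mul_distrib, Finset.prod_mul_distrib,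
        Finset.prod_const, Finset.card_univ, Fintype.card_fin]
    rw [norm_cr hFz hv, e2] at e1
    have h3 := hbd z
    obtain ⟨Pr, hPi⟩ : ∃ Pr : ℝ, Pr = ∏ j, cho z (q j) := ⟨_, rfl⟩
    obtain ⟨Q, hQ⟩ : ∃ Q : ℝ, Q = ∏ j, Real.sqrt (N2 (q j)) := ⟨_, rfl⟩
    obtain ⟨t, ht⟩ : ∃ t : ℝ, t = Real.sqrt (N2 z) ^ d := ⟨_, rfl⟩
    have ht0 : 0 < t := by rw [ht]; positivity
    rw [← hPi, ← hQ, ← ht] at e1
    rw [← ht] at h3
    rw [← hQ] at hQ0
    rw [← hPi, ← hQ, div_mul_eq_mul_div, le_div_iff₀ (by positivity)]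
    have h4 : cho (hF x z) v * (Real.sqrt (N2 (hF x z)) * Real.sqrt (N2 v)) ≤
        cho (hF x z) v * ((M * t) * Real.sqrt (N2 v)) :=
      mul_le_mul_of_nonneg_left (mul_le_mul_of_nonneg_right h3 sv0.le) (cho_nonneg _ _)
    rw [e1] at h4
    have h5 : t * (Pr * (‖a‖ * Q)) ≤ t * (M * Real.sqrt (N2 v) * cho (hF x z) v) := by
      calc t * (Pr * (‖a‖ * Q)) = ‖a‖ * (Pr * (t * Q)) := by ring
        _ ≤ _ := h4
        _ = _ := by ring
    exact le_of_mul_le_mul_left h5 ht0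

/-- the statement for one critical direction -/
def One {d : ℕ} (x : CV d) (c : ℂ × ℂ) (C s : ℝ) : Prop :=
  ∀ z : ℂ × ℂ, z ≠ 0 → cho (hF x z) (hF x c) < s →
      (∃ c' : ℂ × ℂ, c' ≠ 0 ∧ wr x c' = 0 ∧ cho z c' ^ d ≤ C * cho (hF x z) (hF x c)) ∨
      ∀ (g : ℂ → ℂ × ℂ) (y : ℂ) (R : ℝ), 0 < R → DifferentiableOn ℂ g (ball y R) →
        (∀ w ∈ ball y R, g w ≠ 0 ∧ cho (g w) (hF x c) < s) → cr (g y) (hF x z) = 0 →
        ∃ G : ℂ → ℂ × ℂ, DifferentiableOn ℂ G (ball y R) ∧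
          (∀ w ∈ ball y R, G w ≠ 0 ∧ cr (hF x (G w)) (g w) = 0) ∧ cr (G y) z = 0

theorem One.mono {d : ℕ} {x : CV d} {c : ℂ × ℂ} {C C' s s' : ℝ} (h : One x c C s)
    (hC : C ≤ C') (hs : s' ≤ s) : One x c C' s' := by
  intro z hz hzs
  rcases h z hz (hzs.trans_le hs) with ⟨c', h1, h2, h3⟩ | h1
  · refine Or.inl ⟨c', h1, h2, h3.trans ?_⟩
    exact mul_le_mul_of_nonneg_right hC (cho_nonneg _ _)
  · refine Or.inr fun g y R hR hg hgs hgz => h1 g y R hR hg (fun w hw => ?_) hgz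
    exact ⟨(hgs w hw).1, (hgs w hw).2.trans_le hs⟩

theorem One.smul {d : ℕ} {x : CV d} {c : ℂ × ℂ} {C s : ℝ} (h : One x c C s) {a : ℂ}
    (ha : a ≠ 0) : One x (a • c) C s := by
  unfold One at h ⊢
  simp only [hF_smul, cho_smul_right _ (pow_ne_zero d ha)]
  exact h

theorem one_exists {d : ℕ} (x : CV d) (hd : 2 ≤ d) (hx : ND x) (hw : ∃ p, wr x p ≠ 0)
    (c : ℂ × ℂ) (hc : c ≠ 0) : ∃ C > (0 : ℝ), ∃ s > (0 : ℝ), One x c C s := by
  have hv : hF x c ≠ 0 := fun h => hc (hx _ h)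
  obtain ⟨C, hC, q, hq, hprod⟩ := preimages x hd hx hw (hF x c) hv
  -- radii at the noncritical preimages
  have hloc : ∀ j : Fin d, ∃ s > (0 : ℝ), wr x (q j) ≠ 0 → ∀ z : ℂ × ℂ, z ≠ 0 →
      cho z (q j) < s →
      ∀ (g : ℂ → ℂ × ℂ) (y : ℂ) (R : ℝ), 0 < R → DifferentiableOn ℂ g (ball y R) →
        (∀ w ∈ ball y R, g w ≠ 0 ∧ cho (g w) (hF x (q j)) < s) → cr (g y) (hF x z) = 0 →
        ∃ G : ℂ → ℂ × ℂ, DifferentiableOn ℂ G (ball y R) ∧
          (∀ w ∈ ball y R, G w ≠ 0 ∧ cr (hF x (G w)) (g w) = 0) ∧ cr (G y) z = 0 := by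
    intro j
    by_cases h : wr x (q j) = 0
    · exact ⟨1, one_pos, fun h' => absurd h h'⟩
    · obtain ⟨s, hs, hs'⟩ := local_lift x hd hx (q j) (hq j).1 h
      exact ⟨s, hs, fun _ => hs'⟩
  choose s hs hlift using hloc
  have hd0 : 0 < d := by omega
  have : Nonempty (Fin d) := ⟨⟨0, hd0⟩⟩
  obtain ⟨j₀, -, hj₀⟩ := Finset.exists_min_image (Finset.univ : Finset (Fin d)) s
    Finset.univ_nonempty
  obtain ⟨σ, hσ⟩ : ∃ σ : ℝ, σ = s j₀ := ⟨_, rfl⟩
  have hσ0 : 0 < σ := by rw [hσ]; exact hs j₀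
  have hσs : ∀ j, σ ≤ s j := fun j => by rw [hσ]; exact hj₀ j (Finset.mem_univ _)
  refine ⟨C, hC, min σ (σ ^ d / C), lt_min hσ0 (by positivity), ?_⟩
  intro z hz hzs
  have h1 : cho (hF x z) (hF x c) < σ ^ d / C := hzs.trans_le (min_le_right _ _)
  rw [lt_div_iff₀ hC] at h1
  have h2 := hprod z hz
  obtain ⟨j, -, hj⟩ := Finset.exists_min_image (Finset.univ : Finset (Fin d))
    (fun j => cho z (q j)) Finset.univ_nonempty
  have h3 : cho z (q j) ^ d ≤ ∏ i, cho z (q i) := by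
    have : ∏ _i : Fin d, cho z (q j) ≤ ∏ i, cho z (q i) :=
      Finset.prod_le_prod (fun _ _ => cho_nonneg _ _) fun i _ => hj i (Finset.mem_univ _)
    rwa [Finset.prod_const, Finset.card_univ, Fintype.card_fin] at this
  by_cases hwj : wr x (q j) = 0
  · exact Or.inl ⟨q j, (hq j).1, hwj, h3.trans h2⟩
  · refine Or.inr fun g y R hR hg hgs hgz => ?_
    have h4 : cho z (q j) < σ := by
      refine lt_of_pow_lt_pow_left₀ d hσ0.le ?_
      linarith
    refine hlift j hwj z hz (h4.trans_le (hσs j)) g y R hR hg (fun w hw => ?_) hgz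
    obtain ⟨g1, g2⟩ := hgs w hw
    refine ⟨g1, ?_⟩
    have hFq : hF x (q j) ≠ 0 := fun h => (hq j).1 (hx _ h)
    obtain ⟨a, ha, hax⟩ := (cr_eq_zero_iff hFq hv).1 (hq j).2
    rw [hax, cho_smul_right a ha]
    exact g2.trans_le ((min_le_left _ _).trans (hσs j))

theorem finite_one {d : ℕ} (x : CV d) (hd : 2 ≤ d) (hx : ND x) (hw : ∃ p, wr x p ≠ 0)
    (D : Finset (ℂ × ℂ)) : (∀ e ∈ D, e ≠ 0) → ∃ C > (0 : ℝ), ∃ s > (0 : ℝ), ∀ e ∈ D, One x e C s := by
  classical
  induction D using Finset.induction_on with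
  | empty => exact fun _ => ⟨1, one_pos, 1, one_pos, fun e he => absurd he (Finset.notMem_empty e)⟩
  | insert e D _ ih =>
    intro h
    obtain ⟨C, hC, s, hs, h1⟩ := ih fun e' he' => h e' (Finset.mem_insert_of_mem he')
    obtain ⟨C', hC', s', hs', h2⟩ := one_exists x hd hx hw e (h e (Finset.mem_insert_self _ _))
    refine ⟨max C C', lt_max_of_lt_left hC, min s s', lt_min hs hs', fun e' he' => ?_⟩
    rcases Finset.mem_insert.1 he' with rfl | he'
    · exact h2.mono (le_max_right _ _) (min_le_right _ _)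
    · exact (h1 e' he').mono (le_max_left _ _) (min_le_left _ _)

theorem t_LSS : S_LSS := by
  classical
  intro d x hd hx
  by_cases hw : ∃ p, wr x p ≠ 0
  · obtain ⟨W, hW1, hW2, hW3⟩ := (WR d x hd).2.1
    have hsm := (WR d x hd).1
    have hW0 : W ≠ 0 := by
      intro h0
      obtain ⟨p, hp⟩ := hw
      apply hp
      by_cases h2 : p.2 = 0
      · have e1 : p = p.1 • ((1, 0) : ℂ × ℂ) := by
          refine Prod.ext ?_ ?_
          · show p.1 = p.1 * 1
            rw [mul_one]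
          · show p.2 = p.1 * 0
            rw [mul_zero, h2]
        rw [e1, hsm, ← hW3, h0, Polynomial.coeff_zero, mul_zero]
      · have e1 : p = p.2 • ((p.1 / p.2, 1) : ℂ × ℂ) := by
          refine Prod.ext ?_ ?_
          · show p.1 = p.2 * (p.1 / p.2)
            rw [mul_div_cancel₀ _ h2]
          · show p.2 = p.2 * 1
            rw [mul_one]
        rw [e1, hsm, ← hW2, h0, Polynomial.eval_zero, mul_zero]
    obtain ⟨D, hD⟩ : ∃ D : Finset (ℂ × ℂ), D = insert ((1, 0) : ℂ × ℂ)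
      (W.roots.toFinset.image fun r => ((r, 1) : ℂ × ℂ)) := ⟨_, rfl⟩
    have hD0 : ∀ e ∈ D, e ≠ 0 := by
      intro e he
      rw [hD, Finset.mem_insert, Finset.mem_image] at he
      rcases he with rfl | ⟨r, -, rfl⟩
      · intro h
        exact one_ne_zero (congrArg Prod.fst h)
      · intro h
        exact one_ne_zero (congrArg Prod.snd h)
    obtain ⟨C, hC, s, hs, hone⟩ := finite_one x hd hx hw D hD0
    refine ⟨C, hC, s, hs, ?_⟩
    intro z c hz hc hwc hzc
    have hcone : One x c C s := by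
      by_cases h2 : c.2 = 0
      · have h1 : c.1 ≠ 0 := fun h => hc (Prod.ext h h2)
        have e1 : c = c.1 • ((1, 0) : ℂ × ℂ) := by
          refine Prod.ext ?_ ?_
          · show c.1 = c.1 * 1
            rw [mul_one]
          · show c.2 = c.1 * 0
            rw [mul_zero, h2]
        rw [e1]
        refine (hone _ ?_).smul h1
        rw [hD]
        exact Finset.mem_insert_self _ _
      · have e1 : c = c.2 • ((c.1 / c.2, 1) : ℂ × ℂ) := by
          refine Prod.ext ?_ ?_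
          · show c.1 = c.2 * (c.1 / c.2)
            rw [mul_div_cancel₀ _ h2]
          · show c.2 = c.2 * 1
            rw [mul_one]
        have e2 : W.eval (c.1 / c.2) = 0 := by
          rw [e1, hsm] at hwc
          rcases mul_eq_zero.1 hwc with h | h
          · exact absurd h (pow_ne_zero _ h2)
          · rw [hW2]
            exact h
        rw [e1]
        refine (hone _ ?_).smul h2
        rw [hD]
        refine Finset.mem_insert_of_mem (Finset.mem_image_of_mem _ ?_)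
        rw [Multiset.mem_toFinset, Polynomial.mem_roots hW0]
        exact e2
    exact hcone z hz hzc
  · push Not at hw
    refine ⟨1, one_pos, 1, one_pos, ?_⟩
    intro z c hz _ _ _
    refine Or.inl ⟨z, hz, hw z, ?_⟩
    have e1 : cho z z = 0 := by
      unfold cho
      rw [cr_self, norm_zero, zero_div]
    rw [e1, zero_pow (by omega)]
    exact mul_nonneg zero_le_one (cho_nonneg _ _)

end Pool.Agent.H870.HY211
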